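import Pool.Agent.U84.AWQ.Stm
import Pool.Agent.R456.CL.Add

/-! Project AWQ, package ADD (helper981): general additivity from two isometries with orthogonal
ranges (the proof of `Pool.Agent.R456.CL.Add.add_ok`). -/

set_option autoImplicit false

namespace Pool.Agent.U981.AWQ

open Pool.Agent.R456.CL Pool.Agent.R456.CL.Add Pool.Agent.U84.AWQ

universe u

theorem t_ADD : S_ADD.{u} := by
  intro A _ hH hAO ι w E F hpj ho1 ho2 hE hF
  obtain ⟨v₁, v₂, h1, h2, h12⟩ := hH
  have hi : ∀ i, star (v₂ * w i * star v₁) * (v₂ * w i * star v₁)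
      = v₁ * (star (w i) * w i) * star v₁ := by
    intro i
    calc star (v₂ * w i * star v₁) * (v₂ * w i * star v₁)
        = v₁ * (star (w i) * (star v₂ * v₂) * w i) * star v₁ := by
          rw [star_mul, star_mul, star_star]; noncomm_ring
      _ = _ := by rw [h2, mul_one]
  have hf : ∀ i, (v₂ * w i * star v₁) * star (v₂ * w i * star v₁)
      = v₂ * (w i * star (w i)) * star v₂ := by
    intro i
    calc (v₂ * w i * star v₁) * star (v₂ * w i * star v₁)
        = v₂ * (w i * (star v₁ * v₁) * star (w i)) * star v₂ := by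
          rw [star_mul, star_mul, star_star]; noncomm_ring
      _ = _ := by rw [h1, mul_one]
  obtain ⟨v, hv1, hv2, hv3⟩ := hAO ι (fun i => v₂ * w i * star v₁) (v₁ * E * star v₁)
    (v₂ * F * star v₂)
    (fun i => by
      change PJ (star (v₂ * w i * star v₁) * (v₂ * w i * star v₁))
      rw [hi]; exact pj_conj h1 (hpj i))
    (fun i j hij => by
      change star (v₂ * w i * star v₁) * (v₂ * w i * star v₁) *
        (star (v₂ * w j * star v₁) * (v₂ * w j * star v₁)) = 0
      rw [hi, hi, conj_mul h1, ho1 i j hij, mul_zero, zero_mul])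
    (fun i j hij => by
      change (v₂ * w i * star v₁) * star (v₂ * w i * star v₁) *
        ((v₂ * w j * star v₁) * star (v₂ * w j * star v₁)) = 0
      rw [hf, hf, conj_mul h2, ho2 i j hij, mul_zero, zero_mul])
    (by
      have := isSup_conj h1 hE
      have e : (fun i => star ((fun i => v₂ * w i * star v₁) i) * (fun i => v₂ * w i * star v₁) i)
          = fun i => v₁ * (star (w i) * w i) * star v₁ := funext hi
      rw [e]; exact this)
    (by
      have := isSup_conj h2 hF
      have e : (fun i => (fun i => v₂ * w i * star v₁) i * star ((fun i => v₂ * w i * star v₁) i))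
          = fun i => v₂ * (w i * star (w i)) * star v₂ := funext hf
      rw [e]; exact this)
    (by
      calc v₁ * E * star v₁ * (v₂ * F * star v₂)
          = v₁ * E * (star v₁ * v₂) * F * star v₂ := by noncomm_ring
        _ = 0 := by rw [h12]; simp)
  have hpv : PJ (star v * v) := by rw [hv1]; exact pj_conj h1 hE.1
  have hv4 : v₂ * star v₂ * v = v := by
    calc v₂ * star v₂ * v = v₂ * star v₂ * ((v * star v) * v) := by rw [final_mul hpv]
      _ = (v₂ * star v₂ * (v * star v)) * v := by noncomm_ring
      _ = (v * star v) * v := by rw [hv2, conj_range h2]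
      _ = v := final_mul hpv
  have hv5 : v * (v₁ * star v₁) = v := by
    calc v * (v₁ * star v₁) = (v * (star v * v)) * (v₁ * star v₁) := by rw [mul_init hpv]
      _ = v * ((star v * v) * (v₁ * star v₁)) := by noncomm_ring
      _ = v * (star v * v) := by rw [hv1, conj_range' h1]
      _ = v := mul_init hpv
  refine ⟨star v₂ * v * v₁, ?_, ?_, fun i => ?_⟩
  · calc star (star v₂ * v * v₁) * (star v₂ * v * v₁)
        = star v₁ * (star v * (v₂ * star v₂ * v)) * v₁ := by
          rw [star_mul, star_mul, star_star]; noncomm_ring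
      _ = star v₁ * (v₁ * E * star v₁) * v₁ := by rw [hv4, hv1]
      _ = E := conj_back h1
  · calc star v₂ * v * v₁ * star (star v₂ * v * v₁)
        = star v₂ * ((v * (v₁ * star v₁)) * star v) * v₂ := by
          rw [star_mul, star_mul, star_star]; noncomm_ring
      _ = star v₂ * (v₂ * F * star v₂) * v₂ := by rw [hv5, hv2]
      _ = F := conj_back h2
  · have h3 : v * (v₁ * (star (w i) * w i) * star v₁) = v₂ * w i * star v₁ := by
      have := hv3 i
      change v * (star (v₂ * w i * star v₁) * (v₂ * w i * star v₁)) = v₂ * w i * star v₁ at this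
      rwa [hi] at this
    calc star v₂ * v * v₁ * (star (w i) * w i)
        = star v₂ * v * v₁ * (star (w i) * w i) * (star v₁ * v₁) := by rw [h1, mul_one]
      _ = star v₂ * (v * (v₁ * (star (w i) * w i) * star v₁)) * v₁ := by noncomm_ring
      _ = star v₂ * (v₂ * w i * star v₁) * v₁ := by rw [h3]
      _ = (star v₂ * v₂) * w i * (star v₁ * v₁) := by noncomm_ring
      _ = w i := by rw [h1, h2, one_mul, mul_one]


end Pool.Agent.U981.AWQ
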