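import Pool.Agent.U84.AWQ.Stm2
import Pool.Agent.R456.CL.Add

/-! Project AWQ, second part, package GCA (helper981): generalized comparability of arbitrary
projections from the position lemma. -/

set_option autoImplicit false

namespace Pool.Agent.U981.AWQ

open Pool.Agent.R456.CL Pool.Agent.R456.CL.Add Pool.Agent.U84.AWQ

universe u

theorem glue {A : Type u} [CStarAlgebra A] {z p1 p2 q1 q2 : A} (hz : CP z)
    (hp1 : PJ p1) (hp2 : PJ p2) (hq1 : PJ q1) (hq2 : PJ q2) (hp : p1 * p2 = 0)
    (hq : q1 * q2 = 0) (h1 : Eqv p1 q1) (h2 : Sub (z * p2) (z * q2)) :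
    Sub (z * (p1 + p2)) (z * (q1 + q2)) := by
  obtain ⟨u, hu1, hu2⟩ := h1
  obtain ⟨w, hw1, hw2⟩ := h2
  have hzz : z * z = z := hz.1.isIdempotentElem
  have hzs : star z = z := hz.1.isSelfAdjoint
  have hc := hz.2
  have hp2s : star p2 = p2 := hp2.isSelfAdjoint
  have hq2s : star q2 = q2 := hq2.isSelfAdjoint
  have hp2i : p2 * p2 = p2 := hp2.isIdempotentElem
  have hq2i : q2 * q2 = q2 := hq2.isIdempotentElem
  have hq1i : q1 * q1 = q1 := hq1.isIdempotentElem
  have hq' : q2 * q1 = 0 := by
    have := congrArg star hq
    rwa [star_mul, hq1.isSelfAdjoint.star_eq, hq2s, star_zero] at this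
  have hu3 : u * p1 = u := by rw [← hu1]; exact mul_init (by rw [hu1]; exact hp1)
  have hu4 : q1 * u = u := by rw [← hu2]; exact final_mul (by rw [hu1]; exact hp1)
  have hpz : PJ (z * p2) := by
    refine ⟨?_, ?_⟩
    · change z * p2 * (z * p2) = z * p2
      calc z * p2 * (z * p2) = z * (p2 * z) * p2 := by noncomm_ring
        _ = z * z * (p2 * p2) := by rw [← hc]; noncomm_ring
        _ = z * p2 := by rw [hzz, hp2i]
    · change star (z * p2) = z * p2
      rw [star_mul, hp2s, hzs, ← hc]
  have hw0 : PJ (star w * w) := by rw [hw1]; exact hpz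
  have hw3 : w * (z * p2) = w := by rw [← hw1]; exact mul_init hw0
  have hw5 : (w * star w) * w = w := final_mul hw0
  have hw6 : z * q2 * (w * star w) = w * star w := by
    have := congrArg star hw2
    rw [star_mul, star_mul, star_mul, star_star, hq2s, hzs, ← hc] at this
    exact this
  have hw4 : z * q2 * w = w := by
    calc z * q2 * w = z * q2 * ((w * star w) * w) := by rw [hw5]
      _ = (z * q2 * (w * star w)) * w := by noncomm_ring
      _ = w := by rw [hw6, hw5]
  have e1 : star u * w = 0 := by
    have hu5 : star u * q1 = star u := by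
      have := congrArg star hu4
      rwa [star_mul, hq1.isSelfAdjoint.star_eq] at this
    calc star u * w = (star u * q1) * (z * q2 * w) := by rw [hu5, hw4]
      _ = star u * ((q1 * z) * q2) * w := by noncomm_ring
      _ = star u * (z * (q1 * q2)) * w := by rw [← hc]; noncomm_ring
      _ = 0 := by rw [hq]; simp
  have e1' : star w * u = 0 := by
    have := congrArg star e1
    rwa [star_mul, star_star, star_zero] at this
  have hw7 : z * p2 * star w = star w := by
    have := congrArg star hw3
    rwa [star_mul, hpz.isSelfAdjoint.star_eq] at this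
  have e2 : u * star w = 0 := by
    calc u * star w = (u * p1) * (z * p2 * star w) := by rw [hu3, hw7]
      _ = u * ((p1 * z) * p2) * star w := by noncomm_ring
      _ = u * (z * (p1 * p2)) * star w := by rw [← hc]; noncomm_ring
      _ = 0 := by rw [hp]; simp
  have e2' : w * star u = 0 := by
    have := congrArg star e2
    rwa [star_mul, star_star, star_zero] at this
  have s1 : star (z * u + w) * (z * u + w) = z * (p1 + p2) := by
    calc star (z * u + w) * (z * u + w)
        = (star u * z + star w) * (z * u + w) := by rw [star_add, star_mul, hzs]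
      _ = (z * star u + star w) * (z * u + w) := by rw [← hc (star u)]
      _ = z * (star u * z) * u + z * (star u * w) + (star w * z) * u + star w * w := by
          noncomm_ring
      _ = z * (z * star u) * u + z * (star u * w) + (z * star w) * u + star w * w := by
          rw [← hc (star u), ← hc (star w)]
      _ = (z * z) * (star u * u) + z * (star u * w) + z * (star w * u) + star w * w := by
          noncomm_ring
      _ = z * (p1 + p2) := by rw [hzz, hu1, e1, e1', hw1]; noncomm_ring
  have s2 : (z * u + w) * star (z * u + w) = z * q1 + w * star w := by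
    calc (z * u + w) * star (z * u + w)
        = (z * u + w) * (star u * z + star w) := by rw [star_add, star_mul, hzs]
      _ = (z * u + w) * (z * star u + star w) := by rw [← hc (star u)]
      _ = z * (u * z) * star u + z * (u * star w) + (w * z) * star u + w * star w := by
          noncomm_ring
      _ = z * (z * u) * star u + z * (u * star w) + (z * w) * star u + w * star w := by
          rw [← hc u, ← hc w]
      _ = (z * z) * (u * star u) + z * (u * star w) + z * (w * star u) + w * star w := by
          noncomm_ring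
      _ = z * q1 + w * star w := by rw [hzz, hu2, e2, e2']; noncomm_ring
  refine ⟨z * u + w, s1, ?_⟩
  rw [s2]
  have a1 : z * q1 * (z * (q1 + q2)) = z * q1 := by
    calc z * q1 * (z * (q1 + q2)) = z * (q1 * z) * (q1 + q2) := by noncomm_ring
      _ = (z * z) * (q1 * q1 + q1 * q2) := by rw [← hc]; noncomm_ring
      _ = z * q1 := by rw [hzz, hq1i, hq, add_zero]
  have a3 : w * star w * (z * q1) = 0 := by
    calc w * star w * (z * q1) = (w * star w * (z * q2)) * (z * q1) := by rw [hw2]
      _ = w * star w * (z * (q2 * z) * q1) := by noncomm_ring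
      _ = w * star w * ((z * z) * (q2 * q1)) := by rw [← hc q2]; noncomm_ring
      _ = 0 := by rw [hq']; simp
  have a2 : w * star w * (z * (q1 + q2)) = w * star w := by
    calc w * star w * (z * (q1 + q2))
        = w * star w * (z * q1) + w * star w * (z * q2) := by noncomm_ring
      _ = w * star w := by rw [a3, hw2, zero_add]
  rw [add_mul, a1, a2]

theorem t_GCA : S_GCA.{u} := by
  intro A _ hPos hG e f he hf
  obtain ⟨e1, e2, f1, f2, he1, he2, hf1, hf2, h12, k12, hsum, ksum, hE, h2f, h2e⟩ := hPos e f he hf
  have hff2 : f * f2 = f2 := by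
    rw [← ksum, add_mul, k12, hf2.isIdempotentElem.eq, zero_add]
  have h22 : e2 * f2 = 0 := by
    calc e2 * f2 = e2 * (f * f2) := by rw [hff2]
      _ = (e2 * f) * f2 := by noncomm_ring
      _ = 0 := by rw [h2f, zero_mul]
  obtain ⟨z, hz, hs1, hs2⟩ := hG e2 f2 he2 hf2 h22
  refine ⟨z, hz, ?_, ?_⟩
  · rw [← hsum, ← ksum]
    exact glue hz he1 he2 hf1 hf2 h12 k12 hE hs1
  · have hz' : CP (1 - z) := ⟨hz.1.one_sub, fun x => by rw [sub_mul, mul_sub, hz.2, one_mul, mul_one]⟩
    rw [← hsum, ← ksum]
    obtain ⟨u, hu1, hu2⟩ := hE
    exact glue hz' hf1 hf2 he1 he2 k12 h12 ⟨star u, by rw [star_star]; exact hu2,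
      by rw [star_star]; exact hu1⟩ hs2

end Pool.Agent.U981.AWQ
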